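import Pool.Agent.H92.SG.Stmts

/-!
MP_046772_gt, module N0R: vanishing over the field of rational functions, trivial character.
-/

set_option autoImplicit false

namespace Pool.Agent.H57.SG

open Pool.Agent.H92.SG

/-- The generator of the scalar Burau action. -/
def burGen (A : Type*) [CommRing A] (q : Aˣ) (i : ℕ) : (ℕ → A) ≃ₗ[A] (ℕ → A) where
  toFun s := fun j => if j = i then s (i + 1) + s i - ((q⁻¹ : Aˣ) : A) * s i
    else if j = i + 1 then ((q⁻¹ : Aˣ) : A) * s i else s j
  invFun s := fun j => if j = i then (q : A) * s (i + 1)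
    else if j = i + 1 then s i + s (i + 1) - (q : A) * s (i + 1) else s j
  map_add' a b := by
    funext j; simp only [Pi.add_apply]; split_ifs <;> ring
  map_smul' r a := by
    funext j; simp only [Pi.smul_apply, smul_eq_mul, RingHom.id_apply]; split_ifs <;> ring
  left_inv a := by
    funext j
    by_cases h1 : j = i
    · subst h1; simp
    · by_cases h2 : j = i + 1
      · subst h2; simp
      · simp [h1, h2]
  right_inv a := by
    funext j
    by_cases h1 : j = i
    · subst h1; simp
    · by_cases h2 : j = i + 1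
      · subst h2; simp
      · simp [h1, h2]

theorem burGen_apply (A : Type*) [CommRing A] (q : Aˣ) (i : ℕ) (s : ℕ → A) (j : ℕ) :
    burGen A q i s j = if j = i then s (i + 1) + s i - ((q⁻¹ : Aˣ) : A) * s i
    else if j = i + 1 then ((q⁻¹ : Aˣ) : A) * s i else s j := rfl

/-- The scalar Burau action. -/
def bur (A : Type*) [CommRing A] (q : Aˣ) : B →* ((ℕ → A) ≃ₗ[A] (ℕ → A)) :=
  lift (burGen A q)
    (by
      intro i j h
      ext a x
      simp only [LinearEquiv.mul_apply, burGen, LinearEquiv.coe_mk, LinearMap.coe_mk,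
        AddHom.coe_mk]
      split_ifs <;> first | rfl | omega)
    (by
      intro i
      ext a x
      simp only [LinearEquiv.mul_apply, burGen, LinearEquiv.coe_mk, LinearMap.coe_mk,
        AddHom.coe_mk]
      split_ifs <;> first | rfl | omega | ring)

theorem bur_σ (A : Type*) [CommRing A] (q : Aˣ) (i : ℕ) : bur A q (σ i) = burGen A q i :=
  lift_σ _ _ _ i

theorem bur_inv_right {A : Type*} [CommRing A] (q : Aˣ) (x : B) (s : ℕ → A) :
    bur A q x (bur A q x⁻¹ s) = s := by
  rw [← LinearEquiv.mul_apply, ← map_mul, mul_inv_cancel, map_one]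
  rfl

theorem bur_mul {A : Type*} [CommRing A] (q : Aˣ) (x y : B) (s : ℕ → A) :
    bur A q (x * y) s = bur A q x (bur A q y s) := by
  rw [map_mul]
  rfl

theorem bur_one {A : Type*} [CommRing A] (q : Aˣ) (s : ℕ → A) : bur A q 1 s = s := by
  rw [map_one]
  rfl

theorem bur_nat {A A' : Type*} [CommRing A] [CommRing A'] (f : A →+* A') (q : Aˣ) (q' : A'ˣ)
    (hq : f q = q') (x : B) : ∀ s : ℕ → A,
    bur A' q' x (fun i => f (s i)) = fun i => f (bur A q x s i) := by
  have hq' : f ((q⁻¹ : Aˣ) : A) = ((q'⁻¹ : A'ˣ) : A') := by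
    have h1 : Units.map (f : A →* A') q = q' := Units.ext hq
    rw [← h1]
    simp
  induction x using B_induction with
  | h1 => intro s; rw [bur_one, bur_one]
  | hs i =>
    intro s
    funext j
    rw [bur_σ, bur_σ, burGen_apply, burGen_apply]
    split_ifs <;> simp [hq']
  | hm x y hx hy =>
    intro s
    rw [bur_mul, hy, hx, bur_mul]
  | hi x hx =>
    intro s
    apply (bur A' q' x).injective
    rw [bur_inv_right, hx, bur_inv_right]

theorem bur_perm {A : Type*} [CommRing A] (x : B) : ∀ (s : ℕ → A) (i : ℕ),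
    bur A 1 x s (perm x i) = s i := by
  induction x using B_induction with
  | h1 => intro s i; rw [bur_one, map_one]; rfl
  | hs i =>
    intro s j
    rw [bur_σ, burGen_apply, perm_σ]
    by_cases h1 : j = i
    · subst h1; simp
    · by_cases h2 : j = i + 1
      · subst h2; simp
      · rw [Equiv.swap_apply_of_ne_of_ne h1 h2]
        simp [h1, h2]
  | hm x y hx hy =>
    intro s i
    rw [bur_mul, map_mul, Equiv.Perm.mul_apply, hx, hy]
  | hi x hx =>
    intro s i
    have h := hx (bur A 1 x⁻¹ s) (perm x⁻¹ i)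
    rw [bur_inv_right] at h
    rw [← h, ← Equiv.Perm.mul_apply, ← map_mul, mul_inv_cancel, map_one]
    rfl

/-- extension by zero -/
def ext0 {A : Type} [CommRing A] (N : ℕ) (v : Fin N → A) : ℕ → A :=
  fun i => if h : i < N then v ⟨i, h⟩ else 0

theorem ext0_sum {A : Type} [CommRing A] (N : ℕ) (v : Fin N → A) :
    ext0 N v = ∑ k : Fin N, v k • (Pi.single (k : ℕ) 1 : ℕ → A) := by
  funext i
  rw [Finset.sum_apply]
  simp only [Pi.smul_apply, smul_eq_mul]
  unfold ext0
  split_ifs with h
  · rw [Finset.sum_eq_single (⟨i, h⟩ : Fin N)]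
    · simp
    · intro b _ hb
      rw [Pi.single_eq_of_ne, mul_zero]
      intro hc
      exact hb (Fin.ext hc.symm)
    · intro hn
      exact absurd (Finset.mem_univ _) hn
  · rw [Finset.sum_eq_zero]
    intro k _
    rw [Pi.single_eq_of_ne, mul_zero]
    intro hc
    exact h (hc ▸ k.2)

/-- the matrix of the linear conditions -/
def MM (A : Type) [CommRing A] (q : Aˣ) (N : ℕ) (l : List B) :
    Matrix ((Fin l.length × Fin N) ⊕ Unit) (Fin N) A :=
  fun r k => match r with
    | Sum.inl (j, i) => bur A q (l.get j) (Pi.single (k : ℕ) 1) i - (Pi.single (k : ℕ) 1 : ℕ → A) i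
    | Sum.inr _ => (Pi.single (k : ℕ) 1 : ℕ → A) 0

theorem MM_inl {A A' : Type} [CommRing A] [CommRing A'] (f : A →+* A') (q : Aˣ) (q' : A'ˣ)
    (hq : f q = q') (N : ℕ) (l : List B) (v : Fin N → A') (j : Fin l.length) (i : Fin N) :
    ((MM A q N l).map f).mulVec v (Sum.inl (j, i)) =
      bur A' q' (l.get j) (ext0 N v) i - ext0 N v i := by
  have hs : ∀ k : ℕ, (fun i => f ((Pi.single k 1 : ℕ → A) i)) = (Pi.single k 1 : ℕ → A') := by
    intro k
    funext i
    by_cases h : i = k
    · subst h; simp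
    · rw [Pi.single_eq_of_ne h, Pi.single_eq_of_ne h, map_zero]
  rw [ext0_sum, map_sum, Finset.sum_apply, Finset.sum_apply, ← Finset.sum_sub_distrib]
  unfold Matrix.mulVec dotProduct
  apply Finset.sum_congr rfl
  intro k _
  rw [map_smul, Pi.smul_apply, Pi.smul_apply, smul_eq_mul, smul_eq_mul, ← mul_sub, mul_comm]
  congr 1
  change f (bur A q (l.get j) (Pi.single (k : ℕ) 1) i - (Pi.single (k : ℕ) 1 : ℕ → A) i) = _
  rw [map_sub]
  have h1 := congrFun (bur_nat f q q' hq (l.get j) (Pi.single (k : ℕ) 1)) i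
  rw [hs] at h1
  rw [h1]
  have h2 : f ((Pi.single (k : ℕ) 1 : ℕ → A) i) = (Pi.single (k : ℕ) 1 : ℕ → A') i :=
    congrFun (hs k) i
  rw [h2]

theorem MM_inr {A A' : Type} [CommRing A] [CommRing A'] (f : A →+* A') (q : Aˣ)
    (N : ℕ) (l : List B) (v : Fin N → A') (u : Unit) :
    ((MM A q N l).map f).mulVec v (Sum.inr u) = ext0 N v 0 := by
  rw [ext0_sum, Finset.sum_apply]
  unfold Matrix.mulVec dotProduct
  apply Finset.sum_congr rfl
  intro k _
  rw [Pi.smul_apply, smul_eq_mul, mul_comm]
  congr 1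
  change f ((Pi.single (k : ℕ) 1 : ℕ → A) 0) = _
  by_cases h : (0 : ℕ) = (k : ℕ)
  · rw [← h]; simp
  · rw [Pi.single_eq_of_ne h, Pi.single_eq_of_ne h, map_zero]

/-- the scalar statement -/
theorem scalar (hSPEC : SpecStmt) (A F k : Type) [CommRing A] [CommRing F] [IsDomain F] [Field k]
    (f : A →+* k) (g : A →+* F) (hker : ∀ x, g x = 0 → f x = 0) (q : Aˣ) (hq : f q = 1)
    (qF : Fˣ) (hg : g q = qF) (N : ℕ) (l : List B) (hC : Conn N l) (u : ℕ → F)
    (hu : ∀ i, N ≤ i → u i = 0) (hu0 : u 0 = 0) (hfix : ∀ x ∈ l, bur F qF x u = u) : u = 0 := by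
  classical
  have hinj := hSPEC A F k f g hker ((Fin l.length × Fin N) ⊕ Unit) (Fin N) (MM A q N l) (by
    intro v hv
    have hq1 : f q = ((1 : kˣ) : k) := by rw [hq]; rfl
    have h0 : ext0 N v 0 = 0 := by
      rw [← MM_inr f q N l v ()]
      rw [hv]
      rfl
    have h1 : ∀ x ∈ l, ∀ i < N, bur k 1 x (ext0 N v) i = ext0 N v i := by
      intro x hx i hi
      obtain ⟨j, hj⟩ := List.get_of_mem hx
      have h2 := MM_inl f q 1 hq1 N l v j ⟨i, hi⟩
      rw [hv, hj] at h2
      exact (sub_eq_zero.1 h2.symm)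
    have h2 := hC {i | ext0 N v i = 0} h0 (by
      intro x hx i hi
      simp only [Set.mem_ofPred_eq] at hi ⊢
      by_cases hlt : perm x i < N
      · rw [← h1 x hx _ hlt, bur_perm]
        exact hi
      · unfold ext0
        rw [dif_neg hlt])
    funext i
    have h3 := h2 i.1 i.2
    simp only [Set.mem_ofPred_eq] at h3
    unfold ext0 at h3
    rw [dif_pos i.2] at h3
    exact h3)
  have hext : ext0 N (fun i : Fin N => u i) = u := by
    funext i
    unfold ext0
    split_ifs with h
    · rfl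
    · exact (hu i (by omega)).symm
  have h := hinj (fun i : Fin N => u i) (by
    funext r
    rcases r with ⟨j, i⟩ | w
    · rw [MM_inl g q qF hg, hext, hfix _ (List.get_mem l j), sub_self]
      rfl
    · rw [MM_inr g q, hext, hu0]
      rfl)
  funext i
  by_cases hi : i < N
  · exact congrFun h ⟨i, hi⟩
  · exact hu i (by omega)

/-- the two scalar components -/
theorem split (hTWA : TwA) (R : Type) [CommRing R] (m : ℕ) (t q : Rˣ) (ε : R)
    (hε : ε * ε = 1) (hq : ((q⁻¹ : Rˣ) : R) = ε * ((t⁻¹ : Rˣ) : R)) (x : B) :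
    ∀ (a : ℕ → ZMod m) (y : ℕ → V2 R),
    bur R q x (fun i => y i 0 + ε * y i 1) =
      fun i => tw t 1 x a y i 0 + ε * tw t 1 x a y i 1 := by
  induction x using B_induction with
  | h1 => intro a y; rw [bur_one, hTWA.one]
  | hs i =>
    intro a y
    funext j
    rw [bur_σ, burGen_apply, hTWA.σ_apply]
    simp only [Sv, AddChar.one_apply]
    split_ifs with h1 h2
    · simp only [Pi.add_apply, Pi.sub_apply, Pi.smul_apply, Matrix.cons_val_zero,
        Matrix.cons_val_one, smul_eq_mul]
      rw [hq]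
      linear_combination (-((t⁻¹ : Rˣ) : R) * y i 1) * hε
    · simp only [Pi.smul_apply, Matrix.cons_val_zero, Matrix.cons_val_one, smul_eq_mul]
      rw [hq]
      linear_combination (((t⁻¹ : Rˣ) : R) * y i 1) * hε
    · rfl
  | hm x y hx hy =>
    intro a s
    rw [bur_mul, hy a s, hx (dih _ y a) (tw t 1 y a s), hTWA.mul]
  | hi x hx =>
    intro a s
    apply (bur R q x).injective
    rw [bur_inv_right, hx (dih _ x⁻¹ a) (tw t 1 x⁻¹ a s), ← hTWA.mul, mul_inv_cancel, hTWA.one]

/-- the comparison homomorphism -/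
noncomputable def gL : LaurentPolynomial (ZMod 3) →+* RatFunc (ZMod 3) :=
  LaurentPolynomial.eval₂ RatFunc.C tR

theorem gL_inj (x : LaurentPolynomial (ZMod 3)) (h : gL x = 0) : x = 0 := by
  obtain ⟨n, p, hp⟩ := LaurentPolynomial.exists_T_pow x
  have h1 : gL (Polynomial.toLaurent p) = 0 := by rw [hp, map_mul, h, zero_mul]
  unfold gL at h1
  rw [LaurentPolynomial.eval₂_toLaurent] at h1
  have h2 : Polynomial.eval₂ (RatFunc.C) ((tR : (RatFunc (ZMod 3))ˣ) : RatFunc (ZMod 3)) p =
      algebraMap (Polynomial (ZMod 3)) (RatFunc (ZMod 3)) p := by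
    change Polynomial.eval₂RingHom (RatFunc.C) RatFunc.X p = _
    have h4 : Polynomial.eval₂RingHom (RatFunc.C) (RatFunc.X : RatFunc (ZMod 3)) =
        algebraMap (Polynomial (ZMod 3)) (RatFunc (ZMod 3)) := by
      apply Polynomial.ringHom_ext
      · intro a
        simp
      · simp
    rw [h4]
  rw [h2] at h1
  have h3 : p = 0 := by
    have := RatFunc.algebraMap_injective (ZMod 3)
    exact this (by rw [h1, map_zero])
  rw [h3, map_zero] at hp
  have h4 := congrArg (fun z => z * LaurentPolynomial.T (-(n : ℤ))) hp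
  simp only [zero_mul] at h4
  rw [LaurentPolynomial.mul_T_assoc] at h4
  simpa using h4.symm

/-- the unit T -/
noncomputable def TT : (LaurentPolynomial (ZMod 3))ˣ :=
  ⟨LaurentPolynomial.T 1, LaurentPolynomial.T (-1), by rw [← LaurentPolynomial.T_add]; simp,
    by rw [← LaurentPolynomial.T_add]; simp⟩

theorem gL_TT : gL (TT : LaurentPolynomial (ZMod 3)) = (tR : RatFunc (ZMod 3)) := by
  change gL (LaurentPolynomial.T 1) = _
  unfold gL
  rw [LaurentPolynomial.eval₂_T]
  simp

theorem two_ne3 : (2 : ZMod 3) ≠ 0 := by decide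

theorem N0R_thm (hSPEC : SpecStmt) (hTWA : TwA) (_hTWB : TwB) (_hPERM : PermStmt) : N0RStmt := by
  intro m N l a _ hC y hy hy0 hfix
  have : Fact (Nat.Prime 3) := ⟨Nat.prime_three⟩
  have h1 : (fun i => y i 0 + (1 : RatFunc (ZMod 3)) * y i 1) = 0 := by
    apply scalar hSPEC (LaurentPolynomial (ZMod 3)) (RatFunc (ZMod 3)) (ZMod 3)
      (LaurentPolynomial.eval₂ (RingHom.id _) 1) gL
      (fun x hx => by rw [gL_inj x hx, map_zero]) TT
      (by
        change LaurentPolynomial.eval₂ (RingHom.id _) 1 (LaurentPolynomial.T 1) = 1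
        rw [LaurentPolynomial.eval₂_T]
        simp) tR gL_TT N l hC
    · intro i hi; rw [hy i hi]; simp
    · rw [hy0]; simp
    · intro x hx
      rw [split hTWA (RatFunc (ZMod 3)) m tR tR 1 (by ring) (by ring) x a y, hfix x hx]
  have h2 : (fun i => y i 0 + (-1 : RatFunc (ZMod 3)) * y i 1) = 0 := by
    apply scalar hSPEC (LaurentPolynomial (ZMod 3)) (RatFunc (ZMod 3)) (ZMod 3)
      (LaurentPolynomial.eval₂ (RingHom.id _) (-1)) gL
      (fun x hx => by rw [gL_inj x hx, map_zero]) (-TT)
      (by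
        rw [Units.val_neg, map_neg]
        change -LaurentPolynomial.eval₂ (RingHom.id _) (-1) (LaurentPolynomial.T 1) = 1
        rw [LaurentPolynomial.eval₂_T]
        simp) (-tR) (by rw [Units.val_neg, map_neg, gL_TT, Units.val_neg]) N l hC
    · intro i hi; rw [hy i hi]; simp
    · rw [hy0]; simp
    · intro x hx
      rw [split hTWA (RatFunc (ZMod 3)) m tR (-tR) (-1) (by ring) (by simp) x a y, hfix x hx]
  funext i
  have e1 := congrFun h1 i
  have e2 := congrFun h2 i
  simp only [Pi.zero_apply] at e1 e2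
  have h3 : (2 : RatFunc (ZMod 3)) ≠ 0 := by
    intro h
    have h4 : RatFunc.C (2 : ZMod 3) = (0 : RatFunc (ZMod 3)) := by
      rw [← h]; exact map_ofNat _ 2
    have h5 : (2 : ZMod 3) = 0 := by
      apply RatFunc.C_injective (K := ZMod 3)
      rw [h4, map_zero]
    exact two_ne3 h5
  have e3 : y i 1 = 0 := by
    have : (2 : RatFunc (ZMod 3)) * y i 1 = 0 := by linear_combination e1 - e2
    exact (mul_eq_zero.1 this).resolve_left h3
  have e4 : y i 0 = 0 := by
    rw [e3] at e1
    simpa using e1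
  funext p
  fin_cases p
  · exact e4
  · exact e3

end Pool.Agent.H57.SG
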